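import Pool.Agent.Helper97.TN.St

/-!
# Project TN, module G2 (characters of lattices)
-/

set_option autoImplicit false

namespace Pool.Agent.Helper82.TN

open Pool.Agent.Helper97.TN Pool.Agent.Helper95.TT Pool.Agent.Helper24.TF
open scoped Classical

private lemma trace_map_zmod (n p : ℕ) (A : Matrix (Fin n) (Fin n) ℤ) :
    Matrix.trace ((Int.castRingHom (ZMod p)).mapMatrix A) = ((Matrix.trace A : ℤ) : ZMod p) := by
  unfold Matrix.trace
  push_cast
  rfl

private lemma trace_pow_prime (n p : ℕ) [Fact p.Prime] (A : Matrix (Fin n) (Fin n) ℤ) :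
    ((Matrix.trace (A ^ p) : ℤ) : ZMod p) = ((Matrix.trace A : ℤ) : ZMod p) := by
  rw [← trace_map_zmod, ← trace_map_zmod, map_pow, ZMod.trace_pow_card, ZMod.pow_card]

theorem hG2 : StG2 := by
  intro G _ _ n ρ g x a ha
  have : Fintype G := Fintype.ofFinite G
  show ((Matrix.trace (ρ (x * g ^ a * x⁻¹)) : ℤ) : ℝ) = ((Matrix.trace (ρ g) : ℤ) : ℝ)
  have h1 : Matrix.trace (ρ (x * g ^ a * x⁻¹)) = Matrix.trace (ρ (g ^ a)) := by
    rw [map_mul, Matrix.trace_mul_comm, ← map_mul]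
    congr 2
    group
  rw [h1]
  set T : ℤ := ∑ h : G, |Matrix.trace (ρ h)| with hT
  have hTb : ∀ h : G, |Matrix.trace (ρ h)| ≤ T := fun h =>
    Finset.single_le_sum (f := fun h : G => |Matrix.trace (ρ h)|) (fun h _ => abs_nonneg _)
      (Finset.mem_univ h)
  have hT0 : 0 ≤ T := Finset.sum_nonneg fun h _ => abs_nonneg _
  have hN : orderOf g ≠ 0 := (orderOf_pos g).ne'
  have : NeZero (orderOf g) := ⟨hN⟩
  have hu : IsUnit (a : ZMod (orderOf g)) := (ZMod.isUnit_iff_coprime a (orderOf g)).2 ha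
  obtain ⟨p, hp, hpp, hpa⟩ := Nat.forall_exists_prime_gt_and_eq_mod hu (2 * T).toNat
  have : Fact p.Prime := ⟨hpp⟩
  have h2 : g ^ a = g ^ p := by
    rw [pow_eq_pow_iff_modEq]
    exact ((ZMod.natCast_eq_natCast_iff _ _ _).1 hpa).symm
  have h3 : (p : ℤ) ∣ Matrix.trace (ρ (g ^ a)) - Matrix.trace (ρ g) := by
    rw [← ZMod.intCast_eq_intCast_iff_dvd_sub, h2, map_pow]
    exact (trace_pow_prime n p (ρ g)).symm
  have h4 : |Matrix.trace (ρ (g ^ a)) - Matrix.trace (ρ g)| < p := by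
    have h5 := hTb (g ^ a)
    have h6 := hTb g
    have h7 : |Matrix.trace (ρ (g ^ a)) - Matrix.trace (ρ g)| ≤
        |Matrix.trace (ρ (g ^ a))| + |Matrix.trace (ρ g)| := abs_sub _ _
    omega
  have h5 := Int.eq_zero_of_abs_lt_dvd h3 h4
  have h6 : Matrix.trace (ρ (g ^ a)) = Matrix.trace (ρ g) := by omega
  rw [h6]

end Pool.Agent.Helper82.TN
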