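import Pool.Agent.Helper97.TN.St

/-!
# Project TN, module G3 (permutation characters, and operations)
-/

set_option autoImplicit false

namespace Pool.Agent.Helper82.TN

open Pool.Agent.Helper97.TN Pool.Agent.Helper95.TT Pool.Agent.Helper24.TF
open scoped Classical

private lemma fix_pow {G : Type} [Group G] {Ω : Type} [MulAction G Ω] (g : G) (a : ℕ)
    (ha : Nat.Coprime a (orderOf g)) (z : Ω) : g ^ a • z = z ↔ g • z = z := by
  constructor
  · intro h
    obtain ⟨m, hm⟩ := exists_pow_eq_self_of_coprime ha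
    have h1 : g ^ a ∈ MulAction.stabilizer G z := MulAction.mem_stabilizer_iff.2 h
    have h2 := Subgroup.pow_mem _ h1 m
    rw [hm] at h2
    exact MulAction.mem_stabilizer_iff.1 h2
  · intro h
    have h1 : g ∈ MulAction.stabilizer G z := MulAction.mem_stabilizer_iff.2 h
    exact MulAction.mem_stabilizer_iff.1 (Subgroup.pow_mem _ h1 a)

private lemma fx_div {G : Type} [Group G] (Ω : Type) [MulAction G Ω] :
    Div (fun g : G => fx Ω g) := by
  intro g x a ha
  show fx Ω (x * g ^ a * x⁻¹) = fx Ω g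
  unfold fx
  congr 1
  refine Nat.card_congr (Equiv.subtypeEquiv (MulAction.toPerm x⁻¹) fun y => ?_)
  rw [MulAction.toPerm_apply, ← fix_pow g a ha (x⁻¹ • y), mul_smul, mul_smul]
  constructor
  · intro h
    rw [eq_inv_smul_iff]
    exact h
  · intro h
    rw [eq_inv_smul_iff] at h
    exact h

private lemma sq_div {G : Type} [Group G] (χ : G → ℝ) (h : Div χ) :
    Div (fun g : G => χ (g * g)) := by
  intro g x a ha
  show χ (x * g ^ a * x⁻¹ * (x * g ^ a * x⁻¹)) = χ (g * g)
  have e1 : x * g ^ a * x⁻¹ * (x * g ^ a * x⁻¹) = x * (g * g) ^ a * x⁻¹ := by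
    have : (g * g) ^ a = g ^ a * g ^ a := (Commute.refl g).mul_pow a
    rw [this]
    group
  rw [e1]
  apply h
  refine ha.coprime_dvd_right ?_
  have := orderOf_pow_dvd (x := g) 2
  rwa [pow_two] at this

theorem hG3 : StG3 := by
  intro G _ _
  refine ⟨fun Ω _ _ => fx_div Ω, fun χ hχ => ⟨?_, ?_⟩⟩
  · intro g x a ha
    have h1 := hχ g x a ha
    have h2 := sq_div χ hχ g x a ha
    simp only at h2
    unfold sy
    rw [h1, h2]
  · intro g x a ha
    have h1 := hχ g x a ha
    have h2 := sq_div χ hχ g x a ha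
    simp only at h2
    unfold la
    rw [h1, h2]

end Pool.Agent.Helper82.TN
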