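import Pool.Agent.Helper97.TN.St
import Pool.Agent.Helper92.TT.M_A5

/-!
# Project TN, module Q3 (Hasse's bound)
-/

set_option autoImplicit false

namespace Pool.Agent.Helper82.TN

open NumberField IsDedekindDomain Polynomial
open Pool.Agent.Helper97.TN Pool.Agent.Helper95.TT Pool.Agent.Helper24.TF
open scoped Classical

theorem hQ3 (hW11 : Pool.Agent.Helper95.WS.StW11) : StQ3 := by
  intro k _ _ v h2 h hdeg hsq
  have : v.asIdeal.IsMaximal := v.isMaximal
  let inst : Field (𝓞 k ⧸ v.asIdeal) := Ideal.Quotient.field v.asIdeal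
  have hfin : Finite (𝓞 k ⧸ v.asIdeal) := Ideal.finiteQuotientOfFreeOfNeBot v.asIdeal v.ne_bot
  let inst2 : Fintype (𝓞 k ⧸ v.asIdeal) := Fintype.ofFinite _
  have hchar : ringChar (𝓞 k ⧸ v.asIdeal) ≠ 2 := by
    intro h
    apply h2
    rw [← Ideal.Quotient.eq_zero_iff_mem]
    have h3 : ((2 : ℕ) : 𝓞 k ⧸ v.asIdeal) = 0 := by
      rw [ringChar.spec, h]
    have h4 : (Ideal.Quotient.mk v.asIdeal) ((2 : ℕ) : 𝓞 k) = 0 := by
      rw [map_natCast]; exact h3
    rw [Nat.cast_ofNat] at h4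
    exact h4
  have hq : q v = Nat.card (𝓞 k ⧸ v.asIdeal) := by
    unfold q
    rw [Ideal.absNorm_apply, Submodule.cardQuot_apply]
  have hodd : ¬ Even h.natDegree := by rw [hdeg]; decide
  have key := Pool.Agent.Helper92.TT.core (κ := 𝓞 k ⧸ v.asIdeal) hchar
    (RingHom.id (𝓞 k ⧸ v.asIdeal)) 1 h
  simp only [RingHom.id_apply, one_mul, Polynomial.map_id, map_one] at key
  have htr : trF v h = -((∑ x : (𝓞 k ⧸ v.asIdeal), quadraticChar (𝓞 k ⧸ v.asIdeal) (h.eval x)) +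
      if Even h.natDegree then quadraticChar (𝓞 k ⧸ v.asIdeal) h.leadingCoeff else 0) := by
    rw [← key]
    unfold trF ptsF
    rw [hq]
  have hw := hW11 (𝓞 k ⧸ v.asIdeal) h hchar hsq (by rw [hdeg]; norm_num)
  rw [htr]
  have hc : (Fintype.card (𝓞 k ⧸ v.asIdeal) : ℝ) = q v := by
    rw [hq, Nat.card_eq_fintype_card]
  rw [hc, hdeg] at hw
  rw [Int.cast_neg, abs_neg, hdeg]
  refine hw.trans (le_of_eq ?_)
  norm_num

end Pool.Agent.Helper82.TN
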